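import Pool.Agent.T9h5.NK.Defs

/-!
# Periodic cyclic homology with the Mukai pairing, and categories generated by another one
-/

set_option autoImplicit false

open CategoryTheory Module

namespace Pool.Agent.T9h5.NG

open Pool.Agent.T9h5.NK

universe v w x z

/-- Periodic cyclic homology with its pairing. `C` is the category of the saturated dg categories over
`k`, with the groups `K_0 (𝒜ᵒᵖ ⊗ ℬ)` as morphisms `𝒜 ⟶ ℬ`; `HP 0` and `HP 1` are the even and the
odd part of periodic cyclic homology. `form` is the noncommutative Mukai pairing, the bilinear form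
on `HP (𝒜)` which is the Euler form on the classes of objects. It is nondegenerate, and a
correspondence `f` has an adjoint with respect to it, given by the adjoint bimodule. -/
structure PairedTheory (k : Type x) [Field k] (C : Type w) [Category.{v} C] where
  /-- periodic cyclic homology -/
  HP : ZMod 2 → C ⥤ ModuleCat.{z} k
  /-- the Mukai pairing -/
  form : ∀ (i : ZMod 2) (M : C), (HP i).obj M →ₗ[k] (HP i).obj M →ₗ[k] k
  nondeg : ∀ (i : ZMod 2) (M : C) (y : (HP i).obj M), (∀ x, form i M x y = 0) → y = 0
  adjoint : ∀ {M N : C} (f : M ⟶ N), ∃ g : N ⟶ M, ∀ (i : ZMod 2) (x : (HP i).obj M)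
    (y : (HP i).obj N), form i N ((HP i).map f x) y = form i M x ((HP i).map g y)

variable {k : Type x} [Field k] {C : Type w} [Category.{v} C]

/-- The part of parity `i` of the periodic cyclic homology of `A` is generated by `M`: it is the sum
of the images of `HP i M` under the correspondences from `M` to `A`. -/
def IsGenerated (HP : ZMod 2 → C ⥤ ModuleCat.{z} k) (M A : C) (i : ZMod 2) : Prop :=
  ⨆ f : M ⟶ A, LinearMap.range ((HP i).map f).hom = ⊤

/-- Homological and numerical equivalence agree on the part of parity `i` of `M`: a rational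
combination of endomorphisms of `M` which has Euler characteristic zero against all endomorphisms
acts as zero on `HP i M`. For both parities together this is the conjecture `D_NC` for `𝒜ᵒᵖ ⊗ 𝒜`. -/
def HomEqNum [CharZero k] (HP : ZMod 2 → C ⥤ ModuleCat.{z} k) (M : C) (i : ZMod 2) : Prop :=
  ∀ (n : ℕ) (c : Fin n → ℚ) (f : Fin n → (M ⟶ M)),
    (∀ g : M ⟶ M, ∑ j, (c j : k) * euler HP (f j ≫ g) = 0) →
      ∑ j, (c j : k) • act HP i (f j) = 0

/-- The largest part of `A` which comes from `M` splits off: there is a `k`-linear combination `P` of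
endomorphisms of `A` which factor through `M`, zero on the other parity and idempotent on `HP i A`,
such that `1 - P` composed with correspondences from and to `M` is always zero. -/
def IsSplit (HP : ZMod 2 → C ⥤ ModuleCat.{z} k) (M A : C) (i : ZMod 2) : Prop :=
  ∃ (n : ℕ) (c : Fin n → k) (f : Fin n → (M ⟶ A)) (g : Fin n → (A ⟶ M))
    (P : ∀ l : ZMod 2, Module.End k ((HP l).obj A)),
    (∀ l, P l = ∑ j, c j • act HP l (g j ≫ f j)) ∧ (∀ l, l ≠ i → P l = 0) ∧ P i * P i = P i ∧
      ∀ (f' : M ⟶ A) (g' : A ⟶ M),
        ((HP i).map g').hom.comp ((1 - P i : Module.End k ((HP i).obj A)).comp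
          ((HP i).map f').hom) = 0

end Pool.Agent.T9h5.NG
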