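import Pool.Agent.T9h5.NK.Main

/-!
# Idempotents which factor through an object with a nondegenerate trace form
-/

set_option autoImplicit false
set_option linter.unusedSectionVars false

open Module Finset

namespace Pool.Agent.T9h5.NG

section regular

/-- Semisimple rings are von Neumann regular. -/
lemma regular_of_semisimple {R : Type*} [Ring R] [IsSemisimpleRing R] (a : R) :
    ∃ r, a * r * a = a := by
  obtain ⟨J, hJ⟩ := exists_isCompl (Submodule.span R {a} : Submodule R R)
  have h1 : (1 : R) ∈ (Submodule.span R {a} : Submodule R R) ⊔ J := by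
    rw [hJ.sup_eq_top]
    exact Submodule.mem_top
  obtain ⟨u, hu, v, hv, huv⟩ := Submodule.mem_sup.1 h1
  obtain ⟨r, hr⟩ := Submodule.mem_span_singleton.1 hu
  refine ⟨r, ?_⟩
  have h2 : a * v ∈ (Submodule.span R {a} : Submodule R R) ⊓ J := by
    refine ⟨?_, J.smul_mem a hv⟩
    have h3 : a * v = a - a * u := by
      have h5 : a * (u + v) = a := by rw [huv, mul_one]
      rw [mul_add] at h5
      exact eq_sub_of_add_eq' h5
    rw [h3]
    exact Submodule.sub_mem _ (Submodule.mem_span_singleton_self a) (Submodule.smul_mem _ a hu)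
  rw [hJ.inf_eq_bot, Submodule.mem_bot] at h2
  have h4 : a = a * u := by
    have h5 : a * (u + v) = a := by rw [huv, mul_one]
    rw [mul_add, h2, add_zero] at h5
    exact h5.symm
  rw [smul_eq_mul] at hr
  rw [mul_assoc, hr]
  exact h4.symm

variable {k : Type*} [Field k] [CharZero k] {V : Type*} [AddCommGroup V] [Module k V]
  [FiniteDimensional k V]

/-- An algebra of operators with nondegenerate trace form is von Neumann regular. -/
theorem regular_of_trace (R : Subalgebra k (End k V))
    (h : ∀ x ∈ R, (∀ y ∈ R, LinearMap.trace k V (x * y) = 0) → x = 0) {a : End k V}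
    (ha : a ∈ R) : ∃ r ∈ R, a * r * a = a := by
  have hfin : Module.Finite k R := inferInstance
  have hart : IsArtinianRing R := IsArtinianRing.of_finite k R
  have hss : IsSemisimpleRing R := by
    rw [IsArtinianRing.isSemisimpleRing_iff_jacobson, eq_bot_iff]
    intro x hx
    rw [Ideal.mem_bot]
    have hnil : ∀ y : R, IsNilpotent (x * y) := by
      intro y
      obtain ⟨n, hn⟩ := IsSemiprimaryRing.isNilpotent (R := R)
      have h1 : x * y ∈ Ring.jacobson R := Ideal.mul_mem_right _ _ hx
      refine ⟨n, ?_⟩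
      have h2 := Ideal.pow_mem_pow h1 n
      rw [hn] at h2
      exact h2
    have h2 := h x x.2 fun y hy => by
      obtain ⟨n, hn⟩ := hnil ⟨y, hy⟩
      have h3 : IsNilpotent ((x : End k V) * y) := by
        refine ⟨n, ?_⟩
        have h4 := congrArg (fun z : R => (z : End k V)) hn
        exact h4
      exact (LinearMap.isNilpotent_trace_of_isNilpotent h3).eq_zero
    exact Subtype.ext h2
  obtain ⟨r, hr⟩ := regular_of_semisimple (⟨a, ha⟩ : R)
  exact ⟨r, r.2, congrArg (fun z : R => (z : End k V)) hr⟩

end regular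

section split

variable {k : Type*} [Field k] [CharZero k] {V W : Type*} [AddCommGroup V] [Module k V]
  [AddCommGroup W] [Module k W] [FiniteDimensional k W]
  (L : Submodule k (V →ₗ[k] W)) (L' : Submodule k (W →ₗ[k] V)) (R : Subalgebra k (End k V))

/-- The operators on `W` which are sums of compositions of elements of `L'` and `L`. -/
def facts : Submodule k (End k W) :=
  Submodule.span k {x | ∃ f ∈ L, ∃ g ∈ L', x = f.comp g}

variable {L L' R}

lemma comp_mem_facts {f : V →ₗ[k] W} {g : W →ₗ[k] V} (hf : f ∈ L) (hg : g ∈ L') :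
    f.comp g ∈ facts L L' :=
  Submodule.subset_span ⟨f, hf, g, hg, rfl⟩

lemma facts_comp (hLR : ∀ f ∈ L, ∀ r ∈ R, f.comp r ∈ L)
    (hLL : ∀ g ∈ L', ∀ f ∈ L, g.comp f ∈ R) {p : End k W} (hp : p ∈ facts L L')
    {f : V →ₗ[k] W} (hf : f ∈ L) : p.comp f ∈ L := by
  induction hp using Submodule.span_induction with
  | mem x hx =>
    obtain ⟨f₀, hf₀, g₀, hg₀, rfl⟩ := hx
    rw [LinearMap.comp_assoc]
    exact hLR f₀ hf₀ _ (hLL g₀ hg₀ f hf)
  | zero => rw [LinearMap.zero_comp]; exact L.zero_mem
  | add x y _ _ hx hy => rw [LinearMap.add_comp]; exact L.add_mem hx hy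
  | smul t x _ hx => rw [LinearMap.smul_comp]; exact L.smul_mem t hx

lemma comp_facts (hRL : ∀ g ∈ L', ∀ r ∈ R, LinearMap.comp r g ∈ L')
    (hLL : ∀ g ∈ L', ∀ f ∈ L, g.comp f ∈ R) {p : End k W} (hp : p ∈ facts L L')
    {g : W →ₗ[k] V} (hg : g ∈ L') : g.comp p ∈ L' := by
  induction hp using Submodule.span_induction with
  | mem x hx =>
    obtain ⟨f₀, hf₀, g₀, hg₀, rfl⟩ := hx
    rw [← LinearMap.comp_assoc]
    exact hRL g₀ hg₀ _ (hLL g hg f₀ hf₀)
  | zero => rw [LinearMap.comp_zero]; exact L'.zero_mem
  | add x y _ _ hx hy => rw [LinearMap.comp_add]; exact L'.add_mem hx hy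
  | smul t x _ hx => rw [LinearMap.comp_smul]; exact L'.smul_mem t hx

/-- The rank of the sum of two orthogonal idempotents. -/
lemma rank_add {p e : End k W} (hp : p * p = p) (he : e * e = e) (hpe : p * e = 0)
    (hep : e * p = 0) : (p + e) * (p + e) = p + e ∧
      finrank k (LinearMap.range (p + e)) =
        finrank k (LinearMap.range p) + finrank k (LinearMap.range e) := by
  have h1 : (p + e) * (p + e) = p + e := by
    rw [mul_add, add_mul, add_mul, hp, he, hpe, hep, add_zero, zero_add]
  refine ⟨h1, ?_⟩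
  have h2 := NK.trace_idem h1
  rw [map_add, NK.trace_idem hp, NK.trace_idem he] at h2
  exact_mod_cast h2.symm

/-- **The splitting theorem.** Compositions of `L` and `L'` contain an idempotent `p` such that
`g (1 - p) f = 0` for all `f` in `L` and `g` in `L'`. -/
theorem exists_split (hLR : ∀ f ∈ L, ∀ r ∈ R, f.comp r ∈ L)
    (hRL : ∀ g ∈ L', ∀ r ∈ R, LinearMap.comp r g ∈ L')
    (hLL : ∀ g ∈ L', ∀ f ∈ L, g.comp f ∈ R)
    (hreg : ∀ a ∈ R, ∃ r ∈ R, a * r * a = a) :
    ∃ p ∈ facts L L', p * p = p ∧ ∀ f ∈ L, ∀ g ∈ L', g.comp ((1 - p : End k W).comp f) = 0 := by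
  obtain ⟨p, ⟨hpJ, hp⟩, hmax⟩ := WellFounded.has_min
    (measure fun p : End k W => finrank k W - finrank k (LinearMap.range p)).wf
    {p | p ∈ facts L L' ∧ p * p = p} ⟨0, Submodule.zero_mem _, mul_zero _⟩
  refine ⟨p, hpJ, hp, fun f hf g hg => ?_⟩
  by_contra hne
  let f' : V →ₗ[k] W := (1 - p : End k W).comp f
  let g' : W →ₗ[k] V := g.comp (1 - p : End k W)
  have hf' : f' ∈ L := by
    have h1 : f' = f - p.comp f := by
      change (1 - p : End k W).comp f = _
      rw [LinearMap.sub_comp]
      rfl
    rw [h1]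
    exact L.sub_mem hf (facts_comp hLR hLL hpJ hf)
  have hg' : g' ∈ L' := by
    have h1 : g' = g - g.comp p := by
      change g.comp (1 - p : End k W) = _
      rw [LinearMap.comp_sub]
      rfl
    rw [h1]
    exact L'.sub_mem hg (comp_facts hRL hLL hpJ hg)
  have hq : (1 - p : End k W) * (1 - p) = 1 - p := by
    rw [mul_sub, sub_mul, sub_mul, hp, one_mul, mul_one, one_mul, sub_self, sub_zero]
  have hpf : p.comp f' = 0 := by
    change p.comp ((1 - p : End k W).comp f) = 0
    rw [← LinearMap.comp_assoc]
    have h1 : p.comp (1 - p : End k W) = 0 := by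
      change p * (1 - p) = 0
      rw [mul_sub, mul_one, hp, sub_self]
    rw [h1, LinearMap.zero_comp]
  have hgp : g'.comp p = 0 := by
    change (g.comp (1 - p : End k W)).comp p = 0
    rw [LinearMap.comp_assoc]
    have h1 : (1 - p : End k W).comp p = 0 := by
      change (1 - p) * p = 0
      rw [sub_mul, one_mul, hp, sub_self]
    rw [h1, LinearMap.comp_zero]
  let a : End k V := g'.comp f'
  have ha : a ∈ R := hLL g' hg' f' hf'
  have ha0 : a ≠ 0 := by
    intro h0
    apply hne
    have h1 : a = g.comp ((1 - p : End k W).comp f) := by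
      change (g.comp (1 - p : End k W)).comp ((1 - p : End k W).comp f) = _
      rw [LinearMap.comp_assoc, ← LinearMap.comp_assoc f]
      congr 2
    rw [← h1]
    exact h0
  obtain ⟨r, hr, har⟩ := hreg a ha
  let r' : End k V := r * a * r
  have hr' : r' ∈ R := R.mul_mem (R.mul_mem hr ha) hr
  have hra : r' * a * r' = r' := by
    change r * a * r * a * (r * a * r) = r * a * r
    have h1 : r * a * r * a * (r * a * r) = r * (a * r * a) * r * (a * r) := by
      simp only [mul_assoc]
    rw [h1, har]
    have h2 : r * a * r * (a * r) = r * (a * r * a) * r := by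
      simp only [mul_assoc]
    rw [h2, har]
  have har' : a * r' * a = a := by
    change a * (r * a * r) * a = a
    have h1 : a * (r * a * r) * a = (a * r * a) * r * a := by
      simp only [mul_assoc]
    rw [h1, har, har]
  let e : End k W := (f'.comp r').comp g'
  have heJ : e ∈ facts L L' := comp_mem_facts (hLR f' hf' r' hr') hg'
  have hee : e * e = e := by
    refine LinearMap.ext fun x => ?_
    have h1 := LinearMap.congr_fun hra (g' x)
    change r' (a (r' (g' x))) = r' (g' x) at h1
    change f' (r' (g' (f' (r' (g' x))))) = f' (r' (g' x))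
    change r' (g' (f' (r' (g' x)))) = r' (g' x) at h1
    rw [h1]
  have he0 : e ≠ 0 := by
    intro h0
    apply ha0
    refine LinearMap.ext fun x => ?_
    have h1 := LinearMap.congr_fun har' x
    change g' (f' (r' (g' (f' x)))) = a x at h1
    have h2 : f' (r' (g' (f' x))) = 0 := by
      have := LinearMap.congr_fun h0 (f' x)
      exact this
    rw [h2, map_zero] at h1
    exact h1.symm
  have hpe : p * e = 0 := by
    refine LinearMap.ext fun x => ?_
    exact LinearMap.congr_fun hpf (r' (g' x))
  have hep : e * p = 0 := by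
    refine LinearMap.ext fun x => ?_
    have h1 : g' (p x) = 0 := LinearMap.congr_fun hgp x
    change f' (r' (g' (p x))) = 0
    rw [h1, map_zero, map_zero]
  obtain ⟨h1, h2⟩ := rank_add hp hee hpe hep
  have h3 := NK.rank_pos he0
  have h4 := Submodule.finrank_le (LinearMap.range (p + e))
  refine hmax (p + e) ⟨Submodule.add_mem _ hpJ heJ, h1⟩ ?_
  change finrank k W - finrank k (LinearMap.range (p + e)) <
    finrank k W - finrank k (LinearMap.range p)
  omega

end split

end Pool.Agent.T9h5.NG
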