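import Pool.Agent.T9h5.NG.Defs
import Pool.Agent.T9h5.NG.Lin

/-!
# Categories generated by another one in one parity
-/

set_option autoImplicit false
set_option linter.unusedSectionVars false

open CategoryTheory Module Finset

namespace Pool.Agent.T9h5.NG

open Pool.Agent.T9h5.NK

universe v w x z

section

variable {k : Type x} [Field k] {C : Type w} [Category.{v} C]
  (HP : ZMod 2 → C ⥤ ModuleCat.{z} k)

/-- The operators of a morphism on both parities. -/
noncomputable def fam {M N : C} (f : M ⟶ N) (l : ZMod 2) :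
    (HP l).obj M →ₗ[k] (HP l).obj N :=
  ((HP l).map f).hom

lemma fam_comp {M N K : C} (f : M ⟶ N) (g : N ⟶ K) (l : ZMod 2) :
    fam HP (f ≫ g) l = (fam HP g l).comp (fam HP f l) := by
  unfold fam
  rw [CategoryTheory.Functor.map_comp]
  rfl

lemma fam_id (M : C) (l : ZMod 2) : fam HP (𝟙 M) l = LinearMap.id := by
  unfold fam
  rw [CategoryTheory.Functor.map_id]
  rfl

/-- The algebra of the operators on `HP i M`. -/
noncomputable def opAlg (M : C) (i : ZMod 2) : Subalgebra k (Module.End k ((HP i).obj M)) :=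
  (Submodule.span k (Set.range fun f : M ⟶ M => fam HP f i)).toSubalgebra
    (Submodule.subset_span ⟨𝟙 M, fam_id HP M i⟩)
    (by
      intro x y hx hy
      have h := Submodule.mul_mem_mul hx hy
      rw [Submodule.span_mul_span] at h
      refine Submodule.span_mono ?_ h
      rintro _ ⟨_, ⟨f, rfl⟩, _, ⟨g, rfl⟩, rfl⟩
      exact ⟨g ≫ f, fam_comp HP g f i⟩)

lemma mem_opAlg {M : C} {i : ZMod 2} {x : Module.End k ((HP i).obj M)} :
    x ∈ opAlg HP M i ↔ x ∈ Submodule.span k (Set.range fun f : M ⟶ M => fam HP f i) := Iff.rfl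

/-- The linear maps `HP i M → HP i N` given by combinations of morphisms. -/
noncomputable def homs (M N : C) (i : ZMod 2) :
    Submodule k ((HP i).obj M →ₗ[k] (HP i).obj N) :=
  Submodule.span k (Set.range fun f : M ⟶ N => fam HP f i)

lemma homs_comp {M N K : C} {i : ZMod 2} {a : (HP i).obj M →ₗ[k] (HP i).obj N}
    {b : (HP i).obj N →ₗ[k] (HP i).obj K} (ha : a ∈ homs HP M N i) (hb : b ∈ homs HP N K i) :
    b.comp a ∈ homs HP M K i := by
  unfold homs at hb
  induction hb using Submodule.span_induction with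
  | mem x hx =>
    obtain ⟨g, rfl⟩ := hx
    unfold homs at ha
    induction ha using Submodule.span_induction with
    | mem y hy =>
      obtain ⟨f, rfl⟩ := hy
      exact Submodule.subset_span ⟨f ≫ g, fam_comp HP f g i⟩
    | zero => rw [LinearMap.comp_zero]; exact Submodule.zero_mem _
    | add y z _ _ hy hz => rw [LinearMap.comp_add]; exact Submodule.add_mem _ hy hz
    | smul t y _ hy => rw [LinearMap.comp_smul]; exact Submodule.smul_mem _ t hy
  | zero => rw [LinearMap.zero_comp]; exact Submodule.zero_mem _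
  | add y z _ _ hy hz => rw [LinearMap.add_comp]; exact Submodule.add_mem _ hy hz
  | smul t y _ hy => rw [LinearMap.smul_comp]; exact Submodule.smul_mem _ t hy

/-- The families of operators on `HP 0 A` and `HP 1 A` of morphisms which factor through `M`. -/
noncomputable def factFam (M A : C) : Submodule k (∀ l : ZMod 2, Module.End k ((HP l).obj A)) :=
  Submodule.span k (Set.range fun p : (M ⟶ A) × (A ⟶ M) => fun l => fam HP (p.2 ≫ p.1) l)

end

section

variable {k : Type x} [Field k] [CharZero k] {C : Type w} [Category.{v} C]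
  (HP : ZMod 2 → C ⥤ ModuleCat.{z} k)

/-- If the projector of `M` is algebraic, compositions through `M` can be made zero on the other
parity. -/
lemma single_mem {M A : C} {i : ZMod 2} (hC : IsRational HP M i)
    {p : Module.End k ((HP i).obj A)} (hp : p ∈ facts (homs HP M A i) (homs HP A M i)) :
    ∃ P ∈ factFam HP M A, P i = p ∧ ∀ l, l ≠ i → P l = 0 := by
  obtain ⟨n, d, h, hd⟩ := hC
  unfold facts at hp
  induction hp using Submodule.span_induction with
  | mem x hx =>
    obtain ⟨f, hf, g, hg, rfl⟩ := hx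
    unfold homs at hf
    induction hf using Submodule.span_induction with
    | mem y hy =>
      obtain ⟨f₀, rfl⟩ := hy
      unfold homs at hg
      induction hg using Submodule.span_induction with
      | mem u hu =>
        obtain ⟨g₀, rfl⟩ := hu
        refine ⟨∑ m, (d m : k) • fun l => fam HP ((g₀ ≫ h m) ≫ f₀) l,
          Submodule.sum_mem _ fun m _ => Submodule.smul_mem _ _
            (Submodule.subset_span ⟨(f₀, g₀ ≫ h m), rfl⟩), ?_, ?_⟩
        · rw [Finset.sum_apply]
          have h1 : ∀ m, ((d m : k) • fun l => fam HP ((g₀ ≫ h m) ≫ f₀) l) i =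
              (fam HP f₀ i).comp (((d m : k) • act HP i (h m)).comp (fam HP g₀ i)) := by
            intro m
            rw [Pi.smul_apply, fam_comp, fam_comp, LinearMap.smul_comp, LinearMap.comp_smul]
            rfl
          rw [Finset.sum_congr rfl fun m _ => h1 m]
          have h2 := hd i
          rw [if_pos rfl] at h2
          refine LinearMap.ext fun x => ?_
          rw [LinearMap.sum_apply]
          simp only [LinearMap.comp_apply]
          rw [← map_sum, ← LinearMap.sum_apply, h2]
          rfl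
        · intro l hl
          rw [Finset.sum_apply]
          have h1 : ∀ m, ((d m : k) • fun l => fam HP ((g₀ ≫ h m) ≫ f₀) l) l =
              (fam HP f₀ l).comp (((d m : k) • act HP l (h m)).comp (fam HP g₀ l)) := by
            intro m
            rw [Pi.smul_apply, fam_comp, fam_comp, LinearMap.smul_comp, LinearMap.comp_smul]
            rfl
          rw [Finset.sum_congr rfl fun m _ => h1 m]
          have h2 := hd l
          rw [if_neg hl] at h2
          refine LinearMap.ext fun x => ?_
          rw [LinearMap.sum_apply]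
          simp only [LinearMap.comp_apply]
          rw [← map_sum, ← LinearMap.sum_apply, h2, LinearMap.zero_apply, map_zero,
            LinearMap.zero_apply]
      | zero => exact ⟨0, Submodule.zero_mem _, by rw [LinearMap.comp_zero]; rfl, fun _ _ => rfl⟩
      | add u v _ _ hu hv =>
        obtain ⟨P, hP, hPi, hPl⟩ := hu
        obtain ⟨Q, hQ, hQi, hQl⟩ := hv
        refine ⟨P + Q, Submodule.add_mem _ hP hQ, ?_, fun l hl => ?_⟩
        · rw [Pi.add_apply, hPi, hQi, LinearMap.comp_add]
        · rw [Pi.add_apply, hPl l hl, hQl l hl, add_zero]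
      | smul t u _ hu =>
        obtain ⟨P, hP, hPi, hPl⟩ := hu
        refine ⟨t • P, Submodule.smul_mem _ t hP, ?_, fun l hl => ?_⟩
        · rw [Pi.smul_apply, hPi, LinearMap.comp_smul]
        · rw [Pi.smul_apply, hPl l hl, smul_zero]
    | zero => exact ⟨0, Submodule.zero_mem _, by rw [LinearMap.zero_comp]; rfl, fun _ _ => rfl⟩
    | add u v _ _ hu hv =>
      obtain ⟨P, hP, hPi, hPl⟩ := hu
      obtain ⟨Q, hQ, hQi, hQl⟩ := hv
      refine ⟨P + Q, Submodule.add_mem _ hP hQ, ?_, fun l hl => ?_⟩
      · rw [Pi.add_apply, hPi, hQi, LinearMap.add_comp]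
      · rw [Pi.add_apply, hPl l hl, hQl l hl, add_zero]
    | smul t u _ hu =>
      obtain ⟨P, hP, hPi, hPl⟩ := hu
      refine ⟨t • P, Submodule.smul_mem _ t hP, ?_, fun l hl => ?_⟩
      · rw [Pi.smul_apply, hPi, LinearMap.smul_comp]
      · rw [Pi.smul_apply, hPl l hl, smul_zero]
  | zero => exact ⟨0, Submodule.zero_mem _, rfl, fun _ _ => rfl⟩
  | add u v _ _ hu hv =>
    obtain ⟨P, hP, hPi, hPl⟩ := hu
    obtain ⟨Q, hQ, hQi, hQl⟩ := hv
    refine ⟨P + Q, Submodule.add_mem _ hP hQ, ?_, fun l hl => ?_⟩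
    · rw [Pi.add_apply, hPi, hQi]
    · rw [Pi.add_apply, hPl l hl, hQl l hl, add_zero]
  | smul t u _ hu =>
    obtain ⟨P, hP, hPi, hPl⟩ := hu
    refine ⟨t • P, Submodule.smul_mem _ t hP, ?_, fun l hl => ?_⟩
    · rw [Pi.smul_apply, hPi]
    · rw [Pi.smul_apply, hPl l hl, smul_zero]

/-- The supertrace of a family of operators. -/
noncomputable def strF {M : C} (X : ∀ l : ZMod 2, Module.End k ((HP l).obj M)) : k :=
  LinearMap.trace k _ (X 0) - LinearMap.trace k _ (X 1)

lemma euler_comp {M : C} (f g : M ⟶ M) :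
    euler HP (f ≫ g) = strF HP (fun l => act HP l g * act HP l f) := by
  unfold euler strF act
  rw [CategoryTheory.Functor.map_comp, CategoryTheory.Functor.map_comp]
  rfl

lemma coords {M : C} {i : ZMod 2} {d : ℕ} {f : Fin d → (M ⟶ M)}
    {Γ Δ : Matrix (Fin d) (Fin d) ℚ} (h : IsNumericalBasis HP M f Γ Δ) (hD : HomEqNum HP M i)
    {X : ∀ l : ZMod 2, Module.End k ((HP l).obj M)} (hX : X ∈ factFam HP M M) :
    ∃ x : Fin d → k, X i = ∑ l, x l • act HP i (f l) ∧
      ∀ g : M ⟶ M, strF HP (fun l => act HP l g * X l) = ∑ l, x l * euler HP (f l ≫ g) := by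
  unfold factFam at hX
  induction hX using Submodule.span_induction with
  | mem X hX =>
    obtain ⟨⟨p, q⟩, rfl⟩ := hX
    set u : M ⟶ M := q ≫ p with hu
    obtain ⟨a, ha⟩ := h.span u
    refine ⟨fun l => (a l : k), ?_, fun g => ?_⟩
    · have h1 := hD (d + 1) (Fin.cons 1 fun l => -a l) (Fin.cons u f) (fun g => by
        rw [Fin.sum_univ_succ]
        simp only [Fin.cons_zero, Fin.cons_succ, Rat.cast_one, one_mul, Rat.cast_neg, neg_mul,
          Finset.sum_neg_distrib]
        rw [ha g, add_neg_cancel])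
      rw [Fin.sum_univ_succ] at h1
      simp only [Fin.cons_zero, Fin.cons_succ, Rat.cast_one, one_smul, Rat.cast_neg, neg_smul,
          Finset.sum_neg_distrib] at h1
      exact eq_of_sub_eq_zero (by rw [sub_eq_add_neg]; exact h1)
    · rw [← ha g, euler_comp]
      rfl
  | zero =>
    refine ⟨0, ?_, fun g => ?_⟩
    · simp
    · simp [strF]
  | add X Y _ _ hX hY =>
    obtain ⟨x, hx, hx'⟩ := hX
    obtain ⟨y, hy, hy'⟩ := hY
    refine ⟨x + y, ?_, fun g => ?_⟩
    · rw [Pi.add_apply, hx, hy, ← Finset.sum_add_distrib]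
      exact Finset.sum_congr rfl fun l _ => by rw [Pi.add_apply, add_smul]
    · have h1 : strF HP (fun l => act HP l g * (X + Y) l) =
          strF HP (fun l => act HP l g * X l) + strF HP (fun l => act HP l g * Y l) := by
        simp only [strF, Pi.add_apply, mul_add, map_add]
        ring
      rw [h1, hx' g, hy' g, ← Finset.sum_add_distrib]
      exact Finset.sum_congr rfl fun l _ => by rw [Pi.add_apply, add_mul]
  | smul t X _ hX =>
    obtain ⟨x, hx, hx'⟩ := hX
    refine ⟨t • x, ?_, fun g => ?_⟩
    · rw [Pi.smul_apply, hx, Finset.smul_sum]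
      exact Finset.sum_congr rfl fun l _ => by rw [Pi.smul_apply, smul_eq_mul, mul_smul]
    · have h1 : strF HP (fun l => act HP l g * (t • X) l) =
          t * strF HP (fun l => act HP l g * X l) := by
        simp only [strF, Pi.smul_apply, mul_smul_comm, map_smul, smul_eq_mul]
        ring
      rw [h1, hx' g, Finset.mul_sum]
      exact Finset.sum_congr rfl fun l _ => by rw [Pi.smul_apply, smul_eq_mul, mul_assoc]

lemma coeff_zero {d : ℕ} {Γ Δ : Matrix (Fin d) (Fin d) ℚ} (hΔ : Δ * Γ = 1) (x : Fin d → k)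
    (h : ∀ m, ∑ l, x l * ((Γ l m : ℚ) : k) = 0) : x = 0 := by
  have hΓ : Γ * Δ = 1 := mul_eq_one_comm.1 hΔ
  funext m
  have h1 : x m = ∑ l, x l * (((Γ * Δ) l m : ℚ) : k) := by
    rw [hΓ]
    have h2 : ∀ l, x l * (((1 : Matrix (Fin d) (Fin d) ℚ) l m : ℚ) : k) =
        if l = m then x l else 0 := by
      intro l
      rw [Matrix.one_apply]
      split_ifs <;> simp
    rw [Finset.sum_congr rfl fun l _ => h2 l, Finset.sum_ite_eq']
    simp
  rw [h1]
  have h3 : ∀ l, x l * (((Γ * Δ) l m : ℚ) : k) =
      ∑ j, (x l * ((Γ l j : ℚ) : k)) * ((Δ j m : ℚ) : k) := by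
    intro l
    rw [Matrix.mul_apply, Rat.cast_sum, Finset.mul_sum]
    exact Finset.sum_congr rfl fun j _ => by rw [Rat.cast_mul, mul_assoc]
  rw [Finset.sum_congr rfl fun l _ => h3 l, Finset.sum_comm]
  refine Finset.sum_eq_zero fun j _ => ?_
  rw [← Finset.sum_mul, h j, zero_mul]

lemma mem_facts_self {M : C} {i : ZMod 2} {x : Module.End k ((HP i).obj M)}
    [∀ i, FiniteDimensional k ((HP i).obj M)] (hx : x ∈ opAlg HP M i) : x ∈ facts (homs HP M M i) (homs HP M M i) := by
  have h1 : x = LinearMap.comp x (fam HP (𝟙 M) i) := by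
    rw [fam_id]
    rfl
  rw [h1]
  exact comp_mem_facts hx (Submodule.subset_span ⟨𝟙 M, rfl⟩)

/-- The trace form on the operators on `HP i M` is nondegenerate. -/
theorem trace_nondeg {M : C} {i : ZMod 2} (heul : ∀ f : M ⟶ M, ∃ n : ℤ, euler HP f = n)
    [∀ i, FiniteDimensional k ((HP i).obj M)]
    (hC : IsRational HP M i) (hD : HomEqNum HP M i) {x : Module.End k ((HP i).obj M)}
    (hx : x ∈ opAlg HP M i) (h : ∀ y ∈ opAlg HP M i, LinearMap.trace k _ (x * y) = 0) :
    x = 0 := by
  obtain ⟨d, f, Γ, Δ, hb⟩ := exists_numericalBasis HP M heul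
  obtain ⟨X, hX, hXi, hXl⟩ := single_mem HP hC (mem_facts_self HP hx)
  obtain ⟨c, hc, hc'⟩ := coords HP hb hD hX
  have h1 : ∀ g : M ⟶ M, strF HP (fun l => act HP l g * X l) = 0 := by
    intro g
    have h2 : LinearMap.trace k _ (act HP i g * X i) = 0 := by
      rw [hXi, LinearMap.trace_mul_comm]
      exact h _ (Submodule.subset_span ⟨g, rfl⟩)
    have h01 : (1 : ZMod 2) ≠ 0 := by decide
    change LinearMap.trace k _ (act HP 0 g * X 0) - LinearMap.trace k _ (act HP 1 g * X 1) = 0
    rcases two_cases i with rfl | rfl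
    · rw [h2, hXl 1 h01, mul_zero, map_zero, sub_zero]
    · rw [h2, hXl 0 h01.symm, mul_zero, map_zero, sub_zero]
  have h2 : c = 0 := coeff_zero hb.inv c fun m => by
    have h3 := (hc' (f m)).symm.trans (h1 (f m))
    rw [← h3]
    exact Finset.sum_congr rfl fun l _ => by rw [hb.gram]
  rw [← hXi, hc, h2]
  simp

end

section

variable {k : Type x} [Field k] [CharZero k] {C : Type w} [Category.{v} C]

/-- Homological and numerical equivalence agree if the trace form is nondegenerate and the projector
is algebraic. -/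
lemma homEqNum_of {HP : ZMod 2 → C ⥤ ModuleCat.{z} k} {A : C} {i : ZMod 2}
    (hC : IsRational HP A i)
    (h : ∀ x ∈ opAlg HP A i, (∀ y ∈ opAlg HP A i, LinearMap.trace k _ (x * y) = 0) → x = 0) :
    HomEqNum HP A i := by
  intro n c f hf
  obtain ⟨m, b, e, he⟩ := hC
  refine h _ (Submodule.sum_mem _ fun j _ => Submodule.smul_mem _ _
    (Submodule.subset_span ⟨f j, rfl⟩)) fun y hy => ?_
  rw [mem_opAlg] at hy
  induction hy using Submodule.span_induction with
  | mem y hy =>
    obtain ⟨g, rfl⟩ := hy
    -- insert the projector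
    have h1 : ∀ l, ∑ j, ∑ s, ((c j : k) * (b s : k)) • (act HP l g * (act HP l (e s)) *
        act HP l (f j)) = act HP l g * (if l = i then LinearMap.id else 0) *
          ∑ j, (c j : k) • act HP l (f j) := by
      intro l
      rw [← he l, Finset.mul_sum]
      refine Finset.sum_congr rfl fun j _ => ?_
      rw [Finset.mul_sum, Finset.sum_mul]
      refine Finset.sum_congr rfl fun s _ => ?_
      rw [mul_smul_comm, mul_smul_comm, smul_mul_assoc, smul_smul]
    have h2 : ∑ j, ∑ s, ((c j : k) * (b s : k)) * euler HP (f j ≫ (e s ≫ g)) = 0 := by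
      rw [Finset.sum_comm]
      refine Finset.sum_eq_zero fun s _ => ?_
      have h3 := hf (e s ≫ g)
      have h4 : ∑ j, ((c j : k) * (b s : k)) * euler HP (f j ≫ (e s ≫ g)) =
          (b s : k) * ∑ j, (c j : k) * euler HP (f j ≫ (e s ≫ g)) := by
        rw [Finset.mul_sum]
        exact Finset.sum_congr rfl fun j _ => by ring
      rw [h4, h3, mul_zero]
    have h5 : ∀ l, LinearMap.trace k _ (∑ j, ∑ s, ((c j : k) * (b s : k)) •
        (act HP l g * (act HP l (e s)) * act HP l (f j))) =
        ∑ j, ∑ s, ((c j : k) * (b s : k)) *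
          LinearMap.trace k _ (act HP l (f j ≫ (e s ≫ g))) := by
      intro l
      rw [map_sum]
      refine Finset.sum_congr rfl fun j _ => ?_
      rw [map_sum]
      refine Finset.sum_congr rfl fun s _ => ?_
      rw [map_smul, smul_eq_mul]
      congr 2
      unfold act
      rw [CategoryTheory.Functor.map_comp, CategoryTheory.Functor.map_comp]
      rfl
    have h6 : ∑ j, ∑ s, ((c j : k) * (b s : k)) * euler HP (f j ≫ (e s ≫ g)) =
        LinearMap.trace k _ (act HP 0 g * (if (0 : ZMod 2) = i then LinearMap.id else 0) *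
          ∑ j, (c j : k) • act HP 0 (f j)) -
        LinearMap.trace k _ (act HP 1 g * (if (1 : ZMod 2) = i then LinearMap.id else 0) *
          ∑ j, (c j : k) • act HP 1 (f j)) := by
      rw [← h1, ← h1, h5, h5, ← Finset.sum_sub_distrib]
      refine Finset.sum_congr rfl fun j _ => ?_
      rw [← Finset.sum_sub_distrib]
      refine Finset.sum_congr rfl fun s _ => ?_
      unfold euler
      ring
    rw [h2] at h6
    rw [LinearMap.trace_mul_comm]
    have h01 : (1 : ZMod 2) ≠ 0 := by decide
    rcases two_cases i with rfl | rfl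
    · rw [if_pos rfl, if_neg h01, mul_zero, zero_mul, map_zero, sub_zero] at h6
      exact h6.symm
    · rw [if_pos rfl, if_neg h01.symm, mul_zero, zero_mul, map_zero, zero_sub] at h6
      exact neg_eq_zero.1 h6.symm
  | zero => rw [mul_zero, map_zero]
  | add y y' _ _ hy hy' => rw [mul_add, map_add, hy, hy', add_zero]
  | smul t y _ hy => rw [mul_smul_comm, map_smul, hy, smul_zero]

variable (T : PairedTheory.{v, w, x, z} k C) {M A : C} {i : ZMod 2}
  [∀ i, FiniteDimensional k ((T.HP i).obj M)] [∀ i, FiniteDimensional k ((T.HP i).obj A)]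

/-- The splitting idempotent. -/
theorem exists_idem (heul : ∀ f : M ⟶ M, ∃ n : ℤ, euler T.HP f = n)
    (hC : IsRational T.HP M i) (hD : HomEqNum T.HP M i) :
    ∃ p ∈ facts (homs T.HP M A i) (homs T.HP A M i), p * p = p ∧
      ∀ f ∈ homs T.HP M A i, ∀ g ∈ homs T.HP A M i,
        g.comp ((1 - p : Module.End k ((T.HP i).obj A)).comp f) = 0 := by
  refine exists_split (R := opAlg T.HP M i) (fun f hf r hr => homs_comp T.HP hr hf)
    (fun g hg r hr => homs_comp T.HP hg hr) (fun g hg f hf => homs_comp T.HP hf hg)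
    fun a ha => ?_
  exact regular_of_trace _ (fun x hx h => trace_nondeg T.HP heul hC hD hx h) ha

/-- An idempotent which factors through `M` gives `IsSplit`. -/
theorem isSplit (heul : ∀ f : M ⟶ M, ∃ n : ℤ, euler T.HP f = n)
    (hC : IsRational T.HP M i) (hD : HomEqNum T.HP M i) : IsSplit T.HP M A i := by
  obtain ⟨p, hp, hpp, hfg⟩ := exists_idem T (A := A) heul hC hD
  obtain ⟨P, hP, hPi, hPl⟩ := single_mem T.HP hC hp
  unfold factFam at hP
  obtain ⟨n, c, q, hq⟩ := Submodule.mem_span_set'.1 hP
  choose r hr using fun j => (q j).2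
  refine ⟨n, c, fun j => (r j).1, fun j => (r j).2, P, fun l => ?_, hPl, ?_, fun f' g' => ?_⟩
  · rw [← hq, Finset.sum_apply]
    refine Finset.sum_congr rfl fun j _ => ?_
    rw [Pi.smul_apply, ← hr j]
    rfl
  · rw [hPi, hpp]
  · rw [hPi]
    exact hfg _ (Submodule.subset_span ⟨f', rfl⟩) _ (Submodule.subset_span ⟨g', rfl⟩)

/-- An element killed by all correspondences to `M` is zero, if `A` is generated by `M`. -/
lemma eq_zero_of_kill (hgen : IsGenerated T.HP M A i) {y : (T.HP i).obj A}
    (hy : ∀ g : A ⟶ M, (T.HP i).map g y = 0) : y = 0 := by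
  refine T.nondeg i A y fun x => ?_
  have hx : x ∈ ⨆ f : M ⟶ A, LinearMap.range ((T.HP i).map f).hom := by
    rw [hgen]
    exact Submodule.mem_top
  induction hx using Submodule.iSup_induction' with
  | mem f x hx =>
    obtain ⟨u, rfl⟩ := hx
    obtain ⟨g, hg⟩ := T.adjoint f
    have h1 := hg i u y
    rw [hy g, map_zero] at h1
    exact h1
  | zero => rw [map_zero, LinearMap.zero_apply]
  | add x x' _ _ hx hx' => rw [map_add, LinearMap.add_apply, hx, hx', add_zero]

/-- If `A` is generated by `M` in the parity `i`, the projector of `A` is algebraic. -/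
theorem generated (heulM : ∀ f : M ⟶ M, ∃ n : ℤ, euler T.HP f = n)
    (heulA : ∀ f : A ⟶ A, ∃ n : ℤ, euler T.HP f = n)
    (hC : IsRational T.HP M i) (hD : HomEqNum T.HP M i) (hgen : IsGenerated T.HP M A i) :
    (∀ e, IsRational T.HP A e) ∧ HomEqNum T.HP A i := by
  obtain ⟨n, c, f, g, P, hP, hPl, hPP, hfg⟩ := isSplit T (A := A) heulM hC hD
  have hone : P i = 1 := by
    refine LinearMap.ext fun x => ?_
    have h1 : ∀ x, (1 - P i : Module.End k ((T.HP i).obj A)) x = 0 := by
      intro x
      have hx : x ∈ ⨆ f : M ⟶ A, LinearMap.range ((T.HP i).map f).hom := by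
        rw [hgen]
        exact Submodule.mem_top
      induction hx using Submodule.iSup_induction' with
      | mem f' x hx =>
        obtain ⟨u, rfl⟩ := hx
        refine eq_zero_of_kill T hgen fun g' => ?_
        exact LinearMap.congr_fun (hfg f' g') u
      | zero => rw [map_zero]
      | add x x' _ _ hx hx' => rw [map_add, hx, hx', add_zero]
    have h2 := h1 x
    rw [LinearMap.sub_apply] at h2
    exact (sub_eq_zero.1 h2).symm
  have halg : IsAlgebraic T.HP k (RingHom.id k) A i := by
    refine ⟨n, c, fun j => g j ≫ f j, fun l => ?_⟩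
    have h1 : ∑ j, (RingHom.id k) (c j) • (act T.HP l (g j ≫ f j)).baseChange k =
        (P l).baseChange k := by
      rw [hP l]
      have h2 := map_sum (LinearMap.baseChangeHom k k ((T.HP l).obj A) ((T.HP l).obj A))
        (fun j => c j • act T.HP l (g j ≫ f j)) Finset.univ
      refine Eq.trans ?_ h2.symm
      refine Finset.sum_congr rfl fun j _ => ?_
      exact (LinearMap.baseChange_smul _ _).symm
    rw [h1]
    by_cases hl : l = i
    · subst hl
      rw [if_pos rfl, hone]
      exact LinearMap.baseChange_id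
    · rw [if_neg hl, hPl l hl]
      exact LinearMap.baseChange_zero
  have hrat : ∀ e, IsRational T.HP A e := fun e =>
    (isAlgebraic_iff T.HP A heulA (RingHom.id k) i e).1 halg
  refine ⟨hrat, homEqNum_of (hrat i) fun x hx h => ?_⟩
  -- the trace form of `A` is nondegenerate
  by_contra hne
  have h1 : ∃ f' : M ⟶ A, x.comp (fam T.HP f' i) ≠ 0 := by
    by_contra hall
    push Not at hall
    apply hne
    refine LinearMap.ext fun y => ?_
    have hy : y ∈ ⨆ f : M ⟶ A, LinearMap.range ((T.HP i).map f).hom := by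
      rw [hgen]
      exact Submodule.mem_top
    rw [LinearMap.zero_apply]
    induction hy using Submodule.iSup_induction' with
    | mem f' y hy =>
      obtain ⟨u, rfl⟩ := hy
      exact LinearMap.congr_fun (hall f') u
    | zero => rw [map_zero]
    | add y y' _ _ hy hy' => rw [map_add, hy, hy', add_zero]
  obtain ⟨f', hf'⟩ := h1
  have h2 : ∃ g' : A ⟶ M, (fam T.HP g' i).comp (x.comp (fam T.HP f' i)) ≠ 0 := by
    by_contra hall
    push Not at hall
    apply hf'
    refine LinearMap.ext fun y => ?_
    exact eq_zero_of_kill T hgen fun g' => LinearMap.congr_fun (hall g') y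
  obtain ⟨g', hg'⟩ := h2
  have hfm : fam T.HP f' i ∈ homs T.HP M A i := Submodule.subset_span ⟨f', rfl⟩
  have hgm : fam T.HP g' i ∈ homs T.HP A M i := Submodule.subset_span ⟨g', rfl⟩
  refine hg' (trace_nondeg T.HP heulM hC hD
    (homs_comp T.HP (homs_comp T.HP hfm hx) hgm) fun y hy => ?_)
  have h3 : LinearMap.comp (fam T.HP f' i) (y.comp (fam T.HP g' i)) ∈ opAlg T.HP A i :=
    homs_comp T.HP (homs_comp T.HP hgm hy) hfm
  have h4 := h _ h3
  have h5 : LinearMap.trace k _ (((fam T.HP g' i).comp (x.comp (fam T.HP f' i))).comp y) =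
      LinearMap.trace k _ (x.comp (LinearMap.comp (fam T.HP f' i) (y.comp (fam T.HP g' i)))) := by
    exact (LinearMap.trace_comp_comm' (fam T.HP g' i) (x.comp ((fam T.HP f' i).comp y))).symm
  exact h5.trans h4

end

end Pool.Agent.T9h5.NG
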